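import Pool.Agent.Run7.h702.CT.C

/-! The kit for results on all the terms of almost every Collatz trajectory: large terms only, sizes, families of exceptional sets. -/

set_option autoImplicit false

namespace Run7.h702.CT

open Finset Filter Topology
open Pool.Agent.N733.TG (Expanding)

/-- one may assume that the terms are large -/
theorem OnAllTerms.large {P : ℕ → Prop} {v₀ : ℕ} (h : OnAllTerms (fun v => v₀ ≤ v → P v)) : OnAllTerms P := by
  classical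
  refine onAllTerms_of (fun B => ?_)
  obtain ⟨K, hK⟩ := h.1 B
  have hv2 : (1 : ℝ) ≤ (v₀ : ℝ) + 2 := by
    have : (0 : ℝ) ≤ v₀ := Nat.cast_nonneg _
    linarith
  have hl : 0 ≤ Real.log ((v₀ : ℝ) + 2) := Real.log_nonneg hv2
  refine ⟨|K| + Real.log ((v₀ : ℝ) + 2) ^ B + 1, by positivity, fun Y hY N => ?_⟩
  have hlog : 0 < Real.log Y := Real.log_pos (by linarith)
  have hN0 : (0 : ℝ) ≤ N := Nat.cast_nonneg N
  rcases le_or_gt ((v₀ : ℝ) + 2) Y with hc | hc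
  · have h1 := hK Y hY N
    rw [ncard_eq] at h1
    have h2 : (((Icc 1 N).filter (fun m : ℕ => ¬ Down P Y m)).card : ℝ) ≤
        (((Icc 1 N).filter (fun m : ℕ => ¬ AllTerms (fun v => v₀ ≤ v → P v) Y m)).card : ℝ) := by
      have : (Icc 1 N).filter (fun m : ℕ => ¬ Down P Y m) ⊆
          (Icc 1 N).filter (fun m : ℕ => ¬ AllTerms (fun v => v₀ ≤ v → P v) Y m) := by
        intro m hm
        rw [mem_filter] at hm ⊢
        refine ⟨hm.1, fun hd => hm.2 (Down.imp' ((allTerms_iff _ _ _).1 hd) (fun v hv hP => hP ?_))⟩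
        have : (v₀ : ℝ) ≤ v := by linarith
        exact_mod_cast this
      exact_mod_cast card_le_card this
    refine h2.trans (le_trans (le_trans (le_of_eq (by congr!)) h1) ?_)
    apply div_le_div_of_nonneg_right _ (by positivity)
    apply mul_le_mul_of_nonneg_right _ hN0
    have := le_abs_self K
    have : 0 ≤ Real.log ((v₀ : ℝ) + 2) ^ B := by positivity
    linarith
  · have h3 : (((Icc 1 N).filter (fun m : ℕ => ¬ Down P Y m)).card : ℝ) ≤ N := by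
      have : ((Icc 1 N).filter (fun m : ℕ => ¬ Down P Y m)).card ≤ N := by
        refine (card_filter_le _ _).trans ?_
        rw [Nat.card_Icc]; omega
      exact_mod_cast this
    refine h3.trans ?_
    rw [le_div_iff₀ (by positivity)]
    have h4 : Real.log Y ^ B ≤ Real.log ((v₀ : ℝ) + 2) ^ B :=
      pow_le_pow_left₀ hlog.le (Real.log_le_log (by linarith) hc.le) B
    rw [mul_comm]
    apply mul_le_mul_of_nonneg_right _ hN0
    have : 0 ≤ |K| := abs_nonneg K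
    linarith

/-- the numbers near a small multiple of `G v` have at most the size of a power of `v` -/
theorem near_le {G : ℕ → ℝ} {d : ℝ} (hG : Expanding G d) {κ η : ℝ} (hκ1 : κ ≤ 1) (hη1 : η ≤ 1) :
    ∃ v₀ : ℕ, 2 ≤ v₀ ∧ ∀ v : ℕ, v₀ ≤ v → ∀ a : ℕ, (a : ℝ) ≤ (v : ℝ) ^ η → ∀ x : ℝ,
      |x - a * G v| ≤ (v : ℝ) ^ (κ + η) → x ≤ (v : ℝ) ^ (d + 2) := by
  obtain ⟨C, hC⟩ := hG.growth
  have hd := hG.one_le
  refine ⟨⌈|C| + 1⌉₊ + 2, by omega, fun v hv a ha x hx => ?_⟩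
  have hv1 : 1 ≤ v := by omega
  have hvr : (1 : ℝ) ≤ v := by exact_mod_cast hv1
  have hv0 : (0 : ℝ) < v := by linarith
  have hCv : |C| + 1 ≤ v := by
    have h1 : |C| + 1 ≤ (⌈|C| + 1⌉₊ : ℝ) := Nat.le_ceil _
    have h2 : ((⌈|C| + 1⌉₊ : ℕ) : ℝ) ≤ v := by exact_mod_cast (by omega : ⌈|C| + 1⌉₊ ≤ v)
    exact h1.trans h2
  have h1 : a * G v ≤ |C| * (v : ℝ) ^ (d + 1) := by
    have g1 : G v ≤ |C| * (v : ℝ) ^ d := (hC v hv1).trans (mul_le_mul_of_nonneg_right (le_abs_self C) (by positivity))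
    calc (a : ℝ) * G v ≤ a * (|C| * (v : ℝ) ^ d) := mul_le_mul_of_nonneg_left g1 (Nat.cast_nonneg a)
      _ ≤ (v : ℝ) ^ (1 : ℝ) * (|C| * (v : ℝ) ^ d) := by
          apply mul_le_mul_of_nonneg_right _ (by positivity)
          exact ha.trans (Real.rpow_le_rpow_of_exponent_le hvr hη1)
      _ = |C| * ((v : ℝ) ^ d * (v : ℝ) ^ (1 : ℝ)) := by ring
      _ = |C| * (v : ℝ) ^ (d + 1) := by rw [← Real.rpow_add hv0]
  have h2 : (v : ℝ) ^ (κ + η) ≤ (v : ℝ) ^ (d + 1) := Real.rpow_le_rpow_of_exponent_le hvr (by linarith)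
  have h3 := (abs_le.1 hx).2
  calc x ≤ (|C| + 1) * (v : ℝ) ^ (d + 1) := by linarith
    _ ≤ (v : ℝ) ^ (1 : ℝ) * (v : ℝ) ^ (d + 1) := by
        rw [Real.rpow_one]
        exact mul_le_mul_of_nonneg_right hCv (by positivity)
    _ = (v : ℝ) ^ (d + 2) := by
        rw [← Real.rpow_add hv0]
        congr 1
        ring

open scoped Classical in
/-- **The union of the exceptional sets of the members of a family.** -/
theorem family {E : ℕ → Set ℕ} {M : ℕ → ℝ} {ψ : ℝ → ℝ} {C : ℝ} {n₀ : ℕ}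
    (h : ∀ n : ℕ, n₀ ≤ n → 1 ≤ n → ∀ X : ℕ, 1 ≤ X →
      (((Ioc 0 X).filter (fun t : ℕ => (t : ℝ) ≤ M n ∧ t ∈ E n)).card : ℝ) ≤ C * ψ X / (n : ℝ) ^ 2) :
    ∀ X : ℕ, 1 ≤ X → (((Ioc 0 X).filter (fun t => t ∈ {t : ℕ | ∃ n : ℕ, n₀ ≤ n ∧ 1 ≤ n ∧ (t : ℝ) ≤ M n ∧ t ∈ E n})).card : ℝ) ≤
      C * ψ X * ∑' n : ℕ, 1 / (n : ℝ) ^ 2 := by
  intro X hX
  obtain ⟨R, hR⟩ : ∃ R : ℕ, R = ⌈|C * ψ X|⌉₊ + 2 := ⟨_, rfl⟩
  have hRC : |C * ψ X| < R := by
    have := Nat.le_ceil |C * ψ X|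
    rw [hR]
    push_cast
    linarith
  have h0 : ∀ n : ℕ, n₀ ≤ n → 1 ≤ n → 0 ≤ C * ψ X / (n : ℝ) ^ 2 := fun n a b => (Nat.cast_nonneg _).trans (h n a b X hX)
  -- a member of size at least `R` does not contribute
  have hsub : (Ioc 0 X).filter (fun t => t ∈ {t : ℕ | ∃ n : ℕ, n₀ ≤ n ∧ 1 ≤ n ∧ (t : ℝ) ≤ M n ∧ t ∈ E n}) ⊆
      ((range R).filter (fun n => n₀ ≤ n ∧ 1 ≤ n)).biUnion (fun n => (Ioc 0 X).filter (fun t : ℕ => (t : ℝ) ≤ M n ∧ t ∈ E n)) := by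
    intro t ht
    rw [mem_filter] at ht
    obtain ⟨h1, n, h2, h3, h4, h5⟩ := ht
    have hmem : t ∈ (Ioc 0 X).filter (fun t : ℕ => (t : ℝ) ≤ M n ∧ t ∈ E n) := mem_filter.2 ⟨h1, h4, h5⟩
    rw [mem_biUnion]
    refine ⟨n, ?_, hmem⟩
    rw [mem_filter, mem_range]
    refine ⟨?_, h2, h3⟩
    by_contra hcon
    push Not at hcon
    have h6 := h n h2 h3 X hX
    have h7 : (1 : ℝ) ≤ (((Ioc 0 X).filter (fun t : ℕ => (t : ℝ) ≤ M n ∧ t ∈ E n)).card : ℝ) := by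
      exact_mod_cast card_pos.2 ⟨t, hmem⟩
    have hn1 : (1 : ℝ) ≤ n := by exact_mod_cast h3
    have hn2 : (n : ℝ) ≤ (n : ℝ) ^ 2 := by nlinarith
    have h8 : C * ψ X / (n : ℝ) ^ 2 < 1 := by
      rw [div_lt_one (by positivity)]
      have h9 : (R : ℝ) ≤ n := by exact_mod_cast hcon
      calc C * ψ X ≤ |C * ψ X| := le_abs_self _
        _ < R := hRC
        _ ≤ n := h9
        _ ≤ (n : ℝ) ^ 2 := hn2
    linarith
  have hsum : Summable (fun n : ℕ => 1 / (n : ℝ) ^ 2) := Real.summable_one_div_nat_pow.2 (by norm_num)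
  rcases lt_or_ge (C * ψ X) 0 with hneg | hpos
  · -- then there is no member
    have hemp : (range R).filter (fun n => n₀ ≤ n ∧ 1 ≤ n) = ∅ := by
      rw [filter_eq_empty_iff]
      rintro n - ⟨a, b⟩
      have h1 := h0 n a b
      have hn1 : (0 : ℝ) < n := by exact_mod_cast b
      have : C * ψ X / (n : ℝ) ^ 2 < 0 := div_neg_of_neg_of_pos hneg (by positivity)
      linarith
    have h1 := h0 (max n₀ 1) (le_max_left _ _) (le_max_right _ _)
    have hn1 : (0 : ℝ) < ((max n₀ 1 : ℕ) : ℝ) := by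
      exact_mod_cast lt_of_lt_of_le one_pos (le_max_right n₀ 1)
    have : C * ψ X / ((max n₀ 1 : ℕ) : ℝ) ^ 2 < 0 := div_neg_of_neg_of_pos hneg (by positivity)
    linarith
  · calc (((Ioc 0 X).filter (fun t => t ∈ {t : ℕ | ∃ n : ℕ, n₀ ≤ n ∧ 1 ≤ n ∧ (t : ℝ) ≤ M n ∧ t ∈ E n})).card : ℝ)
        ≤ ∑ n ∈ (range R).filter (fun n => n₀ ≤ n ∧ 1 ≤ n),
          (((Ioc 0 X).filter (fun t : ℕ => (t : ℝ) ≤ M n ∧ t ∈ E n)).card : ℝ) := by
          exact_mod_cast (card_le_card hsub).trans card_biUnion_le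
      _ ≤ ∑ n ∈ (range R).filter (fun n => n₀ ≤ n ∧ 1 ≤ n), C * ψ X * (1 / (n : ℝ) ^ 2) := by
          apply sum_le_sum
          intro n hn
          rw [mem_filter] at hn
          refine (h n hn.2.1 hn.2.2 X hX).trans (le_of_eq ?_)
          ring
      _ = C * ψ X * ∑ n ∈ (range R).filter (fun n => n₀ ≤ n ∧ 1 ≤ n), 1 / (n : ℝ) ^ 2 := by rw [mul_sum]
      _ ≤ C * ψ X * ∑' n : ℕ, 1 / (n : ℝ) ^ 2 := by
          apply mul_le_mul_of_nonneg_left _ hpos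
          exact hsum.sum_le_tsum _ (fun i _ => by positivity)

end Run7.h702.CT
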