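import Pool.Agent.N733.TG.K
import Pool.Agent.Run7.h702.AT.E

/-! All the terms of almost every Collatz trajectory keep away from sets with a power saving: the kit. -/

set_option autoImplicit false

namespace Run7.h702.CT

open Finset Filter Topology
open Run7.h702.AT (col col_Cz stay_count almost_all)
open Pool.Agent.N733.TG (Expanding NearG nearG_count step_sum)
open Pool.Agent.R344.TH

/-- The trajectory of `m` takes a value smaller than `Y`, and all the terms before it have the property `P`. -/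
def Down (P : ℕ → Prop) (Y : ℝ) (m : ℕ) : Prop :=
  ∃ k : ℕ, ((col^[k] m : ℕ) : ℝ) < Y ∧ ∀ j < k, P (col^[j] m)

theorem Down.imp {P Q : ℕ → Prop} {Y : ℝ} {m : ℕ} (h : Down P Y m) (hPQ : ∀ v, P v → Q v) : Down Q Y m := by
  obtain ⟨k, h1, h2⟩ := h
  exact ⟨k, h1, fun j hj => hPQ _ (h2 j hj)⟩

/-- one may assume that the terms are `≥ Y` -/
theorem Down.imp' {P Q : ℕ → Prop} {Y : ℝ} {m : ℕ} (h : Down P Y m) (hPQ : ∀ v : ℕ, Y ≤ v → P v → Q v) : Down Q Y m := by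
  classical
  obtain ⟨k, h1, h2⟩ := h
  have h3 : ∃ k : ℕ, ((col^[k] m : ℕ) : ℝ) < Y := ⟨k, h1⟩
  refine ⟨Nat.find h3, Nat.find_spec h3, fun j hj => hPQ _ (not_lt.1 (Nat.find_min h3 hj)) (h2 j ?_)⟩
  exact lt_of_lt_of_le hj (Nat.find_min' h3 h1)

theorem Down.mono {P : ℕ → Prop} {Y Y' : ℝ} {m : ℕ} (hY : Y ≤ Y') (h : Down P Y m) : Down P Y' m := by
  obtain ⟨k, h1, h2⟩ := h
  exact ⟨k, h1.trans_le hY, h2⟩

theorem not_down {W : Set ℕ} {Y : ℝ} {m : ℕ} (h : ¬ Down (fun v => v ∉ W) Y m) :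
    (∀ k : ℕ, Y ≤ ((col^[k] m : ℕ) : ℝ)) ∨ ∃ k : ℕ, (Cz 1)^[k] (m : ℤ) ∈ (fun a : ℕ => (a : ℤ)) '' W ∧
      ∀ j ≤ k, Y ≤ (((Cz 1)^[j] (m : ℤ) : ℤ) : ℝ) := by
  classical
  by_cases h1 : ∀ k : ℕ, Y ≤ ((col^[k] m : ℕ) : ℝ)
  · exact Or.inl h1
  · right
    push Not at h1
    have hk := Nat.find_spec h1
    have hmin : ∀ j < Nat.find h1, Y ≤ ((col^[j] m : ℕ) : ℝ) := fun j hj => not_lt.1 (Nat.find_min h1 hj)
    by_contra hcon
    apply h
    refine ⟨Nat.find h1, hk, fun j hj hq => ?_⟩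
    apply hcon
    refine ⟨j, ⟨_, hq, col_Cz m j⟩, fun i hi => ?_⟩
    rw [← col_Cz, Int.cast_natCast]
    exact hmin i (by omega)

theorem ev_thin {θ : ℝ} (hθ : θ < 1) (C : ℝ) : ∃ X₀ : ℝ, 2 ≤ X₀ ∧ ∀ X : ℝ, X₀ ≤ X →
    C * X ^ θ ≤ X * Real.exp (-(Real.log X) ^ (1 / 2 : ℝ)) := by
  have h1 : Tendsto (fun t : ℝ => (1 - θ) / 2 * t) atTop atTop := tendsto_id.const_mul_atTop (by linarith)
  obtain ⟨T₀, hT₀⟩ := eventually_atTop.1 ((h1.eventually_ge_atTop (Real.log (|C| + 1))).and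
    (eventually_ge_atTop (max 1 ((2 / (1 - θ)) ^ 2))))
  refine ⟨max 2 (Real.exp T₀), le_max_left _ _, fun X hX => ?_⟩
  have hX2 : 2 ≤ X := (le_max_left _ _).trans hX
  have hX0 : 0 < X := by linarith
  obtain ⟨t, ht⟩ : ∃ t, t = Real.log X := ⟨_, rfl⟩
  have hXt : Real.exp t = X := by rw [ht, Real.exp_log hX0]
  have htT : T₀ ≤ t := by
    rw [ht, Real.le_log_iff_exp_le hX0]
    exact (le_max_right _ _).trans hX
  obtain ⟨h2, h3⟩ := hT₀ t htT
  have h31 : 1 ≤ t := (le_max_left _ _).trans h3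
  have h32 : (2 / (1 - θ)) ^ 2 ≤ t := (le_max_right _ _).trans h3
  have h4 : 2 / (1 - θ) ≤ Real.sqrt t := Real.le_sqrt_of_sq_le h32
  have h5 : t ^ (1 / 2 : ℝ) ≤ (1 - θ) / 2 * t := by
    rw [← Real.sqrt_eq_rpow]
    have h6 : Real.sqrt t * Real.sqrt t = t := Real.mul_self_sqrt (by linarith)
    have h7 : 1 ≤ Real.sqrt t * ((1 - θ) / 2) := by
      rw [div_le_iff₀ (by linarith)] at h4
      linarith
    nlinarith [Real.sqrt_nonneg t]
  have h8 : X ^ θ = Real.exp (θ * t) := by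
    rw [← hXt, ← Real.exp_mul, mul_comm]
  rw [← ht, h8]
  calc C * Real.exp (θ * t) ≤ (|C| + 1) * Real.exp (θ * t) :=
        mul_le_mul_of_nonneg_right (by linarith [le_abs_self C]) (Real.exp_pos _).le
    _ ≤ Real.exp ((1 - θ) / 2 * t) * Real.exp (θ * t) := by
        apply mul_le_mul_of_nonneg_right _ (Real.exp_pos _).le
        rw [← Real.log_le_iff_le_exp (by positivity)]
        exact h2
    _ = Real.exp t * Real.exp (-((1 - θ) / 2 * t)) := by
        rw [← Real.exp_add, ← Real.exp_add]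
        congr 1
        ring
    _ ≤ X * Real.exp (-t ^ (1 / 2 : ℝ)) := by
        rw [hXt]
        apply mul_le_mul_of_nonneg_left _ hX0.le
        apply Real.exp_le_exp.2
        linarith

open scoped Classical in
/-- **A set of natural numbers with a power saving is avoided by all the terms.** -/
theorem avoid {W : Set ℕ} {C θ : ℝ} (hθ : θ < 1)
    (hW : ∀ X : ℕ, 1 ≤ X → (((Icc 1 X).filter (fun v => v ∈ W)).card : ℝ) ≤ C * (X : ℝ) ^ θ) (B : ℕ) :
    ∃ K : ℝ, 0 < K ∧ ∀ Y : ℝ, 2 ≤ Y → ∀ N : ℕ,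
      (((Icc 1 N).filter (fun m : ℕ => ¬ Down (fun v => v ∉ W) Y m)).card : ℝ) ≤ K * N / Real.log Y ^ B := by
  obtain ⟨K₁, hK₁, h1⟩ := thin_Cz (d := 1) (by norm_num) isCoprime_one_left (δ := 1 / 2) (by norm_num) B
  obtain ⟨K₂, hK₂, h2⟩ := stay_count B
  obtain ⟨X₀, hX₀2, hX₀⟩ := ev_thin hθ (|C| * 2 ^ |θ|)
  refine ⟨K₁ + K₂ + (Real.log X₀) ^ B, by
    have : 0 < Real.log X₀ := Real.log_pos (by linarith)
    positivity, fun Y hY N => ?_⟩
  have hlog : 0 < Real.log Y := Real.log_pos (by linarith)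
  have hN0 : (0 : ℝ) ≤ N := Nat.cast_nonneg N
  have hlX : 0 < Real.log X₀ := Real.log_pos (by linarith)
  rcases le_or_gt X₀ Y with hc | hc
  · have h3 := h1 Y hY ((fun a : ℕ => (a : ℤ)) '' W) (by
      intro X hX
      have hXX : X₀ ≤ X := hc.trans hX
      refine le_trans ?_ (hX₀ X hXX)
      have hX1 : 1 ≤ ⌊X⌋₊ := Nat.le_floor (by push_cast; linarith)
      have hsub : fA ((fun a : ℕ => (a : ℤ)) '' W) Y X ⊆
          ((Icc 1 ⌊X⌋₊).filter (fun v => v ∈ W)).image (fun a : ℕ => (a : ℤ)) := by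
        intro x hx
        rw [mem_fA] at hx
        obtain ⟨⟨h1, h2⟩, a, ha, rfl⟩ := hx
        rw [mem_image]
        refine ⟨a, ?_, rfl⟩
        rw [mem_filter, mem_Icc]
        push_cast at h1 h2
        refine ⟨⟨?_, Nat.le_floor h2⟩, ha⟩
        have : (1 : ℝ) ≤ a := by linarith
        exact_mod_cast this
      have h4 : ((fA ((fun a : ℕ => (a : ℤ)) '' W) Y X).card : ℝ) ≤
          (((Icc 1 ⌊X⌋₊).filter (fun v => v ∈ W)).card : ℝ) := by
        exact_mod_cast (card_le_card hsub).trans card_image_le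
      refine h4.trans ((hW _ hX1).trans ?_)
      have h5 : (⌊X⌋₊ : ℝ) ≤ X := Nat.floor_le (by linarith)
      have h6 : X / 2 ≤ (⌊X⌋₊ : ℝ) := by
        have := Nat.lt_floor_add_one X
        have h7 : (1 : ℝ) ≤ ⌊X⌋₊ := by exact_mod_cast hX1
        linarith
      have h7 : (⌊X⌋₊ : ℝ) ^ θ ≤ 2 ^ |θ| * X ^ θ := by
        rcases le_or_gt 0 θ with h8 | h8
        · calc (⌊X⌋₊ : ℝ) ^ θ ≤ X ^ θ := Real.rpow_le_rpow (by positivity) h5 h8
            _ ≤ 2 ^ |θ| * X ^ θ := by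
              have h9 : (1 : ℝ) ≤ 2 ^ |θ| := Real.one_le_rpow (by norm_num) (abs_nonneg _)
              have h10 : 0 ≤ X ^ θ := Real.rpow_nonneg (by linarith) _
              nlinarith
        · have hX0 : 0 < X := by linarith
          have h9 : (⌊X⌋₊ : ℝ) ^ θ ≤ (X / 2) ^ θ :=
            Real.rpow_le_rpow_of_nonpos (by positivity) h6 h8.le
          refine h9.trans (le_of_eq ?_)
          rw [abs_of_neg h8, Real.div_rpow hX0.le (by norm_num), Real.rpow_neg (by norm_num)]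
          field_simp
      calc C * (⌊X⌋₊ : ℝ) ^ θ ≤ |C| * (⌊X⌋₊ : ℝ) ^ θ :=
            mul_le_mul_of_nonneg_right (le_abs_self C) (Real.rpow_nonneg (Nat.cast_nonneg _) _)
        _ ≤ |C| * (2 ^ |θ| * X ^ θ) := mul_le_mul_of_nonneg_left h7 (abs_nonneg _)
        _ = _ := by ring) N
    have h4 := h2 Y hY N
    have h5 : ((Icc 1 N).filter (fun m : ℕ => ¬ Down (fun v => v ∉ W) Y m)).card ≤
        ((Icc 1 N).filter (fun m : ℕ => ∀ k : ℕ, Y ≤ ((col^[k] m : ℕ) : ℝ))).card +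
        ((Icc (1 : ℤ) N).filter (fun n => ∃ k : ℕ, (Cz 1)^[k] n ∈ (fun a : ℕ => (a : ℤ)) '' W ∧
          ∀ j ≤ k, Y ≤ (((Cz 1)^[j] n : ℤ) : ℝ))).card := by
      have e1 : (Icc 1 N).filter (fun m : ℕ => ¬ Down (fun v => v ∉ W) Y m) ⊆
          (Icc 1 N).filter (fun m : ℕ => ∀ k : ℕ, Y ≤ ((col^[k] m : ℕ) : ℝ)) ∪
          (Icc 1 N).filter (fun m : ℕ => ∃ k : ℕ, (Cz 1)^[k] (m : ℤ) ∈ (fun a : ℕ => (a : ℤ)) '' W ∧
            ∀ j ≤ k, Y ≤ (((Cz 1)^[j] (m : ℤ) : ℤ) : ℝ)) := by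
        intro m hm
        rw [mem_filter] at hm
        rw [mem_union, mem_filter, mem_filter]
        rcases not_down hm.2 with h | h
        · exact Or.inl ⟨hm.1, h⟩
        · exact Or.inr ⟨hm.1, h⟩
      refine (card_le_card e1).trans ((card_union_le _ _).trans (Nat.add_le_add_left ?_ _))
      apply card_le_card_of_injOn (fun m : ℕ => (m : ℤ))
      · intro m hm
        rw [mem_coe, mem_filter, mem_Icc] at hm
        rw [mem_coe, mem_filter, mem_Icc]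
        have e2 : (1 : ℤ) ≤ (m : ℤ) := by exact_mod_cast hm.1.1
        have e3 : (m : ℤ) ≤ (N : ℤ) := by exact_mod_cast hm.1.2
        exact ⟨⟨e2, e3⟩, hm.2⟩
      · intro a _ b _ hab
        exact Nat.cast_injective (R := ℤ) hab
    have h6 : (((Icc 1 N).filter (fun m : ℕ => ¬ Down (fun v => v ∉ W) Y m)).card : ℝ) ≤
        K₂ * N / Real.log Y ^ B + K₁ * N / Real.log Y ^ B := by
      refine le_trans (by exact_mod_cast h5) (add_le_add h4 h3)
    refine h6.trans ?_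
    rw [← add_div]
    apply div_le_div_of_nonneg_right _ (by positivity)
    have : 0 ≤ (Real.log X₀) ^ B * N := by positivity
    nlinarith
  · have h3 : (((Icc 1 N).filter (fun m : ℕ => ¬ Down (fun v => v ∉ W) Y m)).card : ℝ) ≤ N := by
      have : ((Icc 1 N).filter (fun m : ℕ => ¬ Down (fun v => v ∉ W) Y m)).card ≤ N := by
        refine (card_filter_le _ _).trans ?_
        rw [Nat.card_Icc]; omega
      exact_mod_cast this
    refine h3.trans ?_
    rw [le_div_iff₀ (by positivity)]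
    have h4 : Real.log Y ^ B ≤ Real.log X₀ ^ B :=
      pow_le_pow_left₀ hlog.le (Real.log_le_log (by linarith) hc.le) B
    have h5 : (N : ℝ) * Real.log Y ^ B ≤ Real.log X₀ ^ B * N := by
      rw [mul_comm]
      exact mul_le_mul_of_nonneg_right h4 hN0
    have : 0 ≤ (K₁ + K₂) * N := by positivity
    nlinarith

/-- `G v` grows at least linearly -/
theorem exp_lin {G : ℕ → ℝ} {a : ℝ} (ha : 0 < a) (h : ∀ v : ℕ, 1 ≤ v → a ≤ G (v + 1) - G v) {γ : ℝ} (hγ : γ < 1) :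
    ∃ v₀ : ℕ, 1 ≤ v₀ ∧ ∀ v : ℕ, v₀ ≤ v → a / 2 * v ≤ G v - (v : ℝ) ^ γ := by
  have h1 : Tendsto (fun t : ℝ => t ^ (-(1 - γ))) atTop (𝓝 0) := tendsto_rpow_neg_atTop (by linarith)
  have h2 := h1.eventually (gt_mem_nhds (show (0 : ℝ) < a / 4 by positivity))
  obtain ⟨T, hT⟩ := eventually_atTop.1 (h2.and (eventually_ge_atTop (max 1 (4 * (|G 1| + a) / a))))
  obtain ⟨v₀, hv₀⟩ := exists_nat_ge (max T 1)
  refine ⟨v₀, by exact_mod_cast (le_max_right _ _).trans hv₀, fun v hv => ?_⟩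
  have hvR : (v₀ : ℝ) ≤ v := by exact_mod_cast hv
  obtain ⟨h3, h4⟩ := hT v (((le_max_left _ _).trans hv₀).trans hvR)
  have hv1R : (1 : ℝ) ≤ v := (le_max_left _ _).trans h4
  have hv1 : 1 ≤ v := by exact_mod_cast hv1R
  have h5 := step_sum h (u := 1) (v := v) le_rfl hv1
  have h6 : ((v - 1 : ℕ) : ℝ) = v - 1 := by push_cast [hv1]; ring
  rw [h6] at h5
  have h7 : 4 * (|G 1| + a) / a ≤ v := (le_max_right _ _).trans h4
  rw [div_le_iff₀ ha] at h7
  have h8 : (v : ℝ) ^ γ ≤ a / 4 * v := by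
    have e : (v : ℝ) ^ γ = (v : ℝ) ^ (-(1 - γ)) * v := by
      conv_rhs => rw [← Real.rpow_one (v : ℝ)]
      rw [Real.rpow_one, ← Real.rpow_add_one (by linarith)]
      congr 1
      ring
    rw [e]
    exact mul_le_mul_of_nonneg_right h3.le (by linarith)
  have := neg_abs_le (G 1)
  nlinarith

/-- the exponent -/
noncomputable def et (d s κ : ℝ) : ℝ := min 1 ((1 - d * s - κ) / (2 * (d * (s + 3) + 1)))

theorem et_pos {d s κ : ℝ} (hd : 1 ≤ d) (hs : 0 ≤ s) (h : d * s + κ < 1) : 0 < et d s κ := by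
  unfold et
  apply lt_min one_pos
  apply div_pos (by linarith)
  have : 0 ≤ d * (s + 3) := by positivity
  linarith

open scoped Classical in
/-- **The kit.** If `S` has `O_ε (X ^ (s + ε))` elements of height at most `X`, `G` is expanding of growth `d` and
`d s + κ < 1`, then for all the terms `v` of almost every trajectory and all `a ≤ v ^ η` no element of `S` has a height
within `v ^ (κ + η)` of `a G v`. -/
theorem kit {T : Type*} (S : Set T) (h : T → ℝ) {G : ℕ → ℝ} {d : ℝ}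
    (hG : Expanding G d) {s κ : ℝ} (hs : 0 ≤ s) (hκ : 0 ≤ κ) (h1 : d * s + κ < 1)
    (hS : ∀ ε : ℝ, 0 < ε → ∃ C : ℝ, ∀ X : ℝ, 1 ≤ X →
      {t | t ∈ S ∧ h t ≤ X}.Finite ∧ ({t | t ∈ S ∧ h t ≤ X}.ncard : ℝ) ≤ C * X ^ (s + ε)) :
    ∃ η : ℝ, 0 < η ∧ ∀ B : ℕ, ∃ K : ℝ, 0 < K ∧ ∀ Y : ℝ, 2 ≤ Y → ∀ N : ℕ,
      (((Icc 1 N).filter (fun m : ℕ => ¬ Down (fun v => ∀ a : ℕ, 1 ≤ a → (a : ℝ) ≤ (v : ℝ) ^ η → ∀ t ∈ S,
        (v : ℝ) ^ (κ + η) < |h t - a * G v|) Y m)).card : ℝ) ≤ K * N / Real.log Y ^ B := by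
  have hd := hG.one_le
  obtain ⟨η, hη⟩ : ∃ η, η = et d s κ := ⟨_, rfl⟩
  have hη0 : 0 < η := by rw [hη]; exact et_pos hd hs h1
  have hη1 : η ≤ 1 := by rw [hη]; exact min_le_left _ _
  have hp : 0 < d * (s + 3) + 1 := by positivity
  have hη2 : η * (d * (s + 3) + 1) ≤ (1 - d * s - κ) / 2 := by
    have h2 : η ≤ (1 - d * s - κ) / (2 * (d * (s + 3) + 1)) := by rw [hη]; exact min_le_right _ _
    rw [le_div_iff₀ (by positivity)] at h2
    linarith
  have hds : 0 ≤ d * s := by positivity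
  have hκη : κ + η < 1 := by
    have h2 : η ≤ η * (d * (s + 3) + 1) := by
      have : 0 ≤ d * (s + 3) := by positivity
      nlinarith
    linarith
  obtain ⟨a₀, ha₀, hstep⟩ := hG.step
  obtain ⟨v₀, hv₀1, hv₀⟩ := exp_lin ha₀ hstep hκη
  obtain ⟨C, hC⟩ := hS η hη0
  obtain ⟨c, hc⟩ : ∃ c : ℝ, c = (2 / a₀ + 1) ^ η := ⟨_, rfl⟩
  have hc1 : 1 ≤ c := by
    rw [hc]
    apply Real.one_le_rpow _ hη0.le
    have : 0 < 2 / a₀ := by positivity
    linarith
  obtain ⟨S', hS'⟩ : ∃ S' : Set (T × ℕ), S' = {p | p.1 ∈ S ∧ 1 ≤ p.2 ∧ 0 < h p.1 ∧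
      (p.2 : ℝ) ≤ (2 / a₀ * (h p.1 / p.2)) ^ η} := ⟨_, rfl⟩
  obtain ⟨h', hh'⟩ : ∃ h' : T × ℕ → ℝ, h' = fun p => h p.1 / p.2 := ⟨_, rfl⟩
  obtain ⟨s', hs'⟩ : ∃ s' : ℝ, s' = (1 + η) * (s + η) + η := ⟨_, rfl⟩
  have hs'0 : 0 ≤ s' := by rw [hs']; positivity
  have hs'2 : s' ≤ s + η * (s + 3) := by
    rw [hs']
    nlinarith
  have hθ : d * s' + (κ + η) < 1 := by
    have h2 : d * s' ≤ d * s + d * (η * (s + 3)) := by
      rw [← mul_add]
      exact mul_le_mul_of_nonneg_left hs'2 (by linarith)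
    nlinarith
  have hcount : ∃ C' : ℝ, ∀ X : ℝ, 1 ≤ X → {t | t ∈ S' ∧ h' t ≤ X}.Finite ∧
      ({t | t ∈ S' ∧ h' t ≤ X}.ncard : ℝ) ≤ C' * X ^ s' := by
    refine ⟨|C| * c ^ (s + η) * c, fun X hX => ?_⟩
    have hX0 : 0 < X := by linarith
    have hXη : 1 ≤ X ^ η := Real.one_le_rpow hX hη0.le
    obtain ⟨M, hM⟩ : ∃ M : ℝ, M = c * X ^ η := ⟨_, rfl⟩
    have hM1 : 1 ≤ M := by rw [hM]; exact one_le_mul_of_one_le_of_one_le hc1 hXη
    have hMX : 1 ≤ M * X := one_le_mul_of_one_le_of_one_le hM1 hX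
    obtain ⟨hf, hn⟩ := hC (M * X) hMX
    have hsub : {t | t ∈ S' ∧ h' t ≤ X} ⊆ {t | t ∈ S ∧ h t ≤ M * X} ×ˢ (Set.Icc 1 ⌊M⌋₊) := by
      rintro ⟨t, a⟩ ⟨ht, htX⟩
      rw [hS'] at ht
      rw [hh'] at htX
      obtain ⟨h2, h3, h4, h5⟩ := ht
      simp only at h2 h3 h4 h5 htX
      have ha0 : (0 : ℝ) < a := by exact_mod_cast h3
      have h6 : (a : ℝ) ≤ M := by
        refine h5.trans ?_
        rw [hM, hc, ← Real.mul_rpow (by positivity) hX0.le]
        apply Real.rpow_le_rpow (by positivity) _ hη0.le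
        have h7 : 2 / a₀ * (h t / a) ≤ 2 / a₀ * X := mul_le_mul_of_nonneg_left htX (by positivity)
        linarith
      refine ⟨⟨h2, ?_⟩, h3, Nat.le_floor h6⟩
      rw [div_le_iff₀ ha0] at htX
      calc h t ≤ X * a := htX
        _ ≤ X * M := mul_le_mul_of_nonneg_left h6 hX0.le
        _ = M * X := mul_comm _ _
    have hfin2 : ({t | t ∈ S ∧ h t ≤ M * X} ×ˢ (Set.Icc 1 ⌊M⌋₊) : Set (T × ℕ)).Finite :=
      hf.prod (Set.finite_Icc _ _)
    refine ⟨hfin2.subset hsub, ?_⟩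
    have h2 : ({t | t ∈ S' ∧ h' t ≤ X}.ncard : ℝ) ≤ ({t | t ∈ S ∧ h t ≤ M * X}.ncard : ℝ) * M := by
      have h3 := Set.ncard_le_ncard hsub hfin2
      rw [Set.ncard_prod] at h3
      have h4 : (Set.Icc 1 ⌊M⌋₊).ncard = ⌊M⌋₊ := by
        rw [← coe_Icc, Set.ncard_coe_finset, Nat.card_Icc]
        omega
      rw [h4] at h3
      calc ({t | t ∈ S' ∧ h' t ≤ X}.ncard : ℝ) ≤ ({t | t ∈ S ∧ h t ≤ M * X}.ncard : ℝ) * ⌊M⌋₊ := by
            exact_mod_cast h3
        _ ≤ _ := mul_le_mul_of_nonneg_left (Nat.floor_le (by linarith)) (Nat.cast_nonneg _)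
    refine h2.trans ?_
    calc ({t | t ∈ S ∧ h t ≤ M * X}.ncard : ℝ) * M ≤ (|C| * (M * X) ^ (s + η)) * M := by
          apply mul_le_mul_of_nonneg_right _ (by linarith)
          exact hn.trans (mul_le_mul_of_nonneg_right (le_abs_self C) (by positivity))
      _ = |C| * c ^ (s + η) * c * ((X ^ (1 + η)) ^ (s + η) * X ^ η) := by
          have e : M * X = c * X ^ (1 + η) := by
            rw [hM, add_comm, Real.rpow_add_one (by linarith)]
            ring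
          rw [e, hM, Real.mul_rpow (by linarith) (by positivity)]
          ring
      _ = |C| * c ^ (s + η) * c * X ^ s' := by
          rw [← Real.rpow_mul hX0.le, ← Real.rpow_add hX0, hs']
  obtain ⟨K', hK'⟩ := nearG_count S' h' hG (s := s') (κ := κ + η) hs'0 (by linarith) hκη.le hcount
  obtain ⟨W, hW⟩ : ∃ W : Set ℕ, W = {v : ℕ | ∃ a : ℕ, 1 ≤ a ∧ (a : ℝ) ≤ (v : ℝ) ^ η ∧ ∃ t ∈ S,
      |h t - a * G v| ≤ (v : ℝ) ^ (κ + η)} := ⟨_, rfl⟩
  have hWc : ∀ X : ℕ, 1 ≤ X → (((Icc 1 X).filter (fun v => v ∈ W)).card : ℝ) ≤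
      (|K'| + v₀) * (X : ℝ) ^ (d * s' + (κ + η)) := by
    intro X hX
    have hX1 : (1 : ℝ) ≤ X := by exact_mod_cast hX
    have hXp : (1 : ℝ) ≤ (X : ℝ) ^ (d * s' + (κ + η)) := Real.one_le_rpow hX1 (by positivity)
    have h2 : (Icc 1 X).filter (fun v => v ∈ W) ⊆
        (Icc 1 X).filter (fun v => v ∈ NearG S' h' G (κ + η)) ∪ range v₀ := by
      intro v hv
      rw [mem_filter] at hv
      rw [mem_union, mem_filter, mem_range]
      obtain ⟨hvX, hvW⟩ := hv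
      rw [hW] at hvW
      obtain ⟨a, ha1, ha2, t, ht, hta⟩ := hvW
      rcases lt_or_ge v v₀ with hlt | hge
      · exact Or.inr hlt
      · left
        refine ⟨hvX, (t, a), ?_, ?_⟩
        · have ha1R : (1 : ℝ) ≤ a := by exact_mod_cast ha1
          have hv1 : (1 : ℝ) ≤ v := by exact_mod_cast hv₀1.trans hge
          have h3 := hv₀ v hge
          have h4 : a₀ / 2 * v ≤ h t / a := by
            rw [le_div_iff₀ (by linarith)]
            have h5 := (abs_le.1 hta).1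
            have h6 : (v : ℝ) ^ (κ + η) ≤ (v : ℝ) ^ (κ + η) * a :=
              le_mul_of_one_le_right (by positivity) ha1R
            nlinarith
          rw [hS']
          refine ⟨ht, ha1, ?_, ?_⟩
          · have h5 : 0 < a₀ / 2 * v := by positivity
            have h6 : 0 < h t / a := by linarith
            have h7 : h t = h t / a * a := by field_simp
            simp only
            rw [h7]
            positivity
          · simp only
            refine ha2.trans (Real.rpow_le_rpow (by positivity) ?_ hη0.le)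
            calc (v : ℝ) = 2 / a₀ * (a₀ / 2 * v) := by field_simp
              _ ≤ 2 / a₀ * (h t / a) := mul_le_mul_of_nonneg_left h4 (by positivity)
        · have ha1R : (1 : ℝ) ≤ a := by exact_mod_cast ha1
          have ha0 : (0 : ℝ) < a := by linarith
          rw [hh']
          simp only
          have e : h t / a - G v = (h t - a * G v) / a := by field_simp
          rw [e, abs_div, abs_of_pos ha0, div_le_iff₀ ha0]
          refine hta.trans ?_
          exact le_mul_of_one_le_right (by positivity) ha1R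
    have h3 : (((Icc 1 X).filter (fun v => v ∈ W)).card : ℝ) ≤
        (((Icc 1 X).filter (fun v => v ∈ NearG S' h' G (κ + η))).card : ℝ) + v₀ := by
      have h4 := (card_le_card h2).trans (card_union_le _ _)
      rw [card_range] at h4
      exact_mod_cast h4
    refine h3.trans ?_
    rw [add_mul]
    apply add_le_add
    · refine le_trans (le_trans (le_of_eq (by congr!)) (hK' X hX)) ?_
      exact mul_le_mul_of_nonneg_right (le_abs_self _) (by positivity)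
    · exact le_mul_of_one_le_right (Nat.cast_nonneg _) hXp
  refine ⟨η, hη0, fun B => ?_⟩
  obtain ⟨K, hK, hav⟩ := avoid hθ hWc B
  refine ⟨K, hK, fun Y hY N => le_trans ?_ (hav Y hY N)⟩
  have h2 : (Icc 1 N).filter (fun m : ℕ => ¬ Down (fun v => ∀ a : ℕ, 1 ≤ a → (a : ℝ) ≤ (v : ℝ) ^ η → ∀ t ∈ S,
        (v : ℝ) ^ (κ + η) < |h t - a * G v|) Y m) ⊆ (Icc 1 N).filter (fun m : ℕ => ¬ Down (fun v => v ∉ W) Y m) := by
    intro m hm
    rw [mem_filter] at hm ⊢
    refine ⟨hm.1, fun hd => hm.2 (hd.imp fun v hv a ha1 ha2 t ht => ?_)⟩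
    by_contra hcon
    apply hv
    rw [hW]
    exact ⟨a, ha1, ha2, t, ht, not_lt.1 hcon⟩
  exact_mod_cast card_le_card h2

open scoped Classical in
/-- the same with the diagonal form: `f` tends to infinity -/
theorem kit_almost {P : ℕ → Prop} (h : ∀ B : ℕ, ∃ K : ℝ, 0 < K ∧ ∀ Y : ℝ, 2 ≤ Y → ∀ N : ℕ,
      (((Icc 1 N).filter (fun m : ℕ => ¬ Down P Y m)).card : ℝ) ≤ K * N / Real.log Y ^ B)
    (f : ℕ → ℝ) (hf : Tendsto f atTop atTop) :
    Tendsto (fun N : ℕ => (((Icc 1 N).filter (fun m : ℕ => Down P (f m) m)).card : ℝ) / N) atTop (𝓝 1) :=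
  almost_all (D := fun Y n => Down P Y n) (fun _ _ _ hY h => h.mono hY) (h 1) f hf

end Run7.h702.CT
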