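import Pool.Agent.Run7.h702.CT.A

/-! The kit for results on all the terms of almost every Collatz trajectory: definitions and forms for use. -/

set_option autoImplicit false

namespace Run7.h702.CT

open Finset Filter Topology
open Pool.Agent.N733.TG (Expanding)

/-- The Collatz map. -/
def collatz (n : ℕ) : ℕ := if n % 2 = 0 then n / 2 else 3 * n + 1

/-- The trajectory of `m` takes a value smaller than `Y`, and EVERY term `v` before it has the property `P`. -/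
def AllTerms (P : ℕ → Prop) (Y : ℝ) (m : ℕ) : Prop :=
  ∃ k : ℕ, ((collatz^[k] m : ℕ) : ℝ) < Y ∧ ∀ j < k, P (collatz^[j] m)

/-- `P` holds for all the terms of almost every Collatz trajectory: (1) for all `B` there is `K` such that for all `Y ≥ 2` and
all `N`, all the `m ∈ [1, N]` but at most `K N / (log Y)^B` have a value smaller than `Y` in their trajectory, and every term
before it has the property `P`; (2) for every function `F` which tends to infinity (however slowly) almost every `m` has a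
value smaller than `F m` in its trajectory, and every term before it has the property `P`. -/
def OnAllTerms (P : ℕ → Prop) : Prop :=
  (∀ B : ℕ, ∃ K : ℝ, ∀ Y : ℝ, 2 ≤ Y → ∀ N : ℕ,
    (Set.ncard {m : ℕ | 1 ≤ m ∧ m ≤ N ∧ ¬ AllTerms P Y m} : ℝ) ≤ K * N / Real.log Y ^ B) ∧
  ∀ F : ℕ → ℝ, Tendsto F atTop atTop →
    Tendsto (fun N : ℕ => (Set.ncard {m : ℕ | 1 ≤ m ∧ m ≤ N ∧ AllTerms P (F m) m} : ℝ) / N) atTop (𝓝 1)

theorem allTerms_iff (P : ℕ → Prop) (Y : ℝ) (m : ℕ) : AllTerms P Y m ↔ Down P Y m := Iff.rfl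

open scoped Classical in
theorem ncard_eq (Q : ℕ → Prop) (N : ℕ) : Set.ncard {m : ℕ | 1 ≤ m ∧ m ≤ N ∧ Q m} = ((Icc 1 N).filter Q).card := by
  rw [← Set.ncard_coe_finset]
  congr 1
  ext m
  simp only [coe_filter, mem_Icc, Set.mem_setOf_eq]
  tauto

open scoped Classical in
theorem onAllTerms_of {P : ℕ → Prop} (h : ∀ B : ℕ, ∃ K : ℝ, 0 < K ∧ ∀ Y : ℝ, 2 ≤ Y → ∀ N : ℕ,
      (((Icc 1 N).filter (fun m : ℕ => ¬ Down P Y m)).card : ℝ) ≤ K * N / Real.log Y ^ B) : OnAllTerms P := by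
  refine ⟨fun B => ?_, fun F hF => ?_⟩
  · obtain ⟨K, _, hK⟩ := h B
    refine ⟨K, fun Y hY N => ?_⟩
    rw [ncard_eq]
    refine le_trans (le_of_eq ?_) (hK Y hY N)
    congr!
  · have h1 := kit_almost h F hF
    refine h1.congr (fun N => ?_)
    rw [ncard_eq]
    congr!

theorem OnAllTerms.imp {P Q : ℕ → Prop} (h : OnAllTerms P) (hPQ : ∀ v, P v → Q v) : OnAllTerms Q := by
  classical
  refine onAllTerms_of (fun B => ?_)
  obtain ⟨K, hK⟩ := h.1 B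
  refine ⟨max K 1, by positivity, fun Y hY N => ?_⟩
  have h1 := hK Y hY N
  rw [ncard_eq] at h1
  have h2 : (((Icc 1 N).filter (fun m : ℕ => ¬ Down Q Y m)).card : ℝ) ≤
      (((Icc 1 N).filter (fun m : ℕ => ¬ AllTerms P Y m)).card : ℝ) := by
    have : (Icc 1 N).filter (fun m : ℕ => ¬ Down Q Y m) ⊆ (Icc 1 N).filter (fun m : ℕ => ¬ AllTerms P Y m) := by
      intro m hm
      rw [mem_filter] at hm ⊢
      exact ⟨hm.1, fun hd => hm.2 (Down.imp hd hPQ)⟩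
    exact_mod_cast card_le_card this
  refine h2.trans (le_trans (le_trans (le_of_eq (by congr!)) h1) ?_)
  have hlog : 0 < Real.log Y := Real.log_pos (by linarith)
  apply div_le_div_of_nonneg_right _ (by positivity)
  exact mul_le_mul_of_nonneg_right (le_max_left _ _) (Nat.cast_nonneg _)

/-- two properties at once -/
theorem OnAllTerms.and {P Q : ℕ → Prop} (h : OnAllTerms P) (h' : OnAllTerms Q) : OnAllTerms (fun v => P v ∧ Q v) := by
  classical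
  refine onAllTerms_of (fun B => ?_)
  obtain ⟨K, hK⟩ := h.1 B
  obtain ⟨K', hK'⟩ := h'.1 B
  refine ⟨max (K + K') 1, by positivity, fun Y hY N => ?_⟩
  have h1 := hK Y hY N
  have h1' := hK' Y hY N
  rw [ncard_eq] at h1 h1'
  have h2 : (((Icc 1 N).filter (fun m : ℕ => ¬ Down (fun v => P v ∧ Q v) Y m)).card : ℝ) ≤
      (((Icc 1 N).filter (fun m : ℕ => ¬ AllTerms P Y m)).card : ℝ) +
      (((Icc 1 N).filter (fun m : ℕ => ¬ AllTerms Q Y m)).card : ℝ) := by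
    have : (Icc 1 N).filter (fun m : ℕ => ¬ Down (fun v => P v ∧ Q v) Y m) ⊆
        (Icc 1 N).filter (fun m : ℕ => ¬ AllTerms P Y m) ∪ (Icc 1 N).filter (fun m : ℕ => ¬ AllTerms Q Y m) := by
      intro m hm
      rw [mem_filter] at hm
      rw [mem_union, mem_filter, mem_filter]
      by_contra hcon
      push Not at hcon
      obtain ⟨c1, c2⟩ := hcon
      have d1 := c1 hm.1
      have d2 := c2 hm.1
      apply hm.2
      obtain ⟨k, a1, a2⟩ := d1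
      have hex : ∃ k : ℕ, ((collatz^[k] m : ℕ) : ℝ) < Y := ⟨k, a1⟩
      obtain ⟨k', b1, b2⟩ := d2
      refine ⟨Nat.find hex, Nat.find_spec hex, fun j hj => ⟨a2 j ?_, b2 j ?_⟩⟩
      · exact lt_of_lt_of_le hj (Nat.find_min' hex a1)
      · exact lt_of_lt_of_le hj (Nat.find_min' hex b1)
    exact_mod_cast (card_le_card this).trans (card_union_le _ _)
  have h3 : (((Icc 1 N).filter (fun m : ℕ => ¬ AllTerms P Y m)).card : ℝ) ≤ K * N / Real.log Y ^ B :=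
    le_trans (le_of_eq (by congr!)) h1
  have h4 : (((Icc 1 N).filter (fun m : ℕ => ¬ AllTerms Q Y m)).card : ℝ) ≤ K' * N / Real.log Y ^ B :=
    le_trans (le_of_eq (by congr!)) h1'
  refine h2.trans ((add_le_add h3 h4).trans ?_)
  have hlog : 0 < Real.log Y := Real.log_pos (by linarith)
  rw [← add_div, ← add_mul]
  apply div_le_div_of_nonneg_right _ (by positivity)
  exact mul_le_mul_of_nonneg_right (le_max_left _ _) (Nat.cast_nonneg _)

/-- **The kit for a property.** -/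
theorem good {T : Type*} (Adm Good : T → Prop) (h : T → ℝ) {G : ℕ → ℝ} {d : ℝ}
    (hG : Expanding G d) {s κ : ℝ} (hs : 0 ≤ s) (hκ : 0 ≤ κ) (h1 : d * s + κ < 1)
    (hS : ∀ ε : ℝ, 0 < ε → ∃ C : ℝ, ∀ X : ℝ, 1 ≤ X →
      {t | (Adm t ∧ ¬ Good t) ∧ h t ≤ X}.Finite ∧ ({t | (Adm t ∧ ¬ Good t) ∧ h t ≤ X}.ncard : ℝ) ≤ C * X ^ (s + ε)) :
    ∃ η : ℝ, 0 < η ∧ OnAllTerms (fun v => ∀ a : ℕ, 1 ≤ a → (a : ℝ) ≤ (v : ℝ) ^ η → ∀ t : T, Adm t →
      |h t - a * G v| ≤ (v : ℝ) ^ (κ + η) → Good t) := by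
  obtain ⟨η, hη, h2⟩ := kit {t | Adm t ∧ ¬ Good t} h hG hs hκ h1 hS
  refine ⟨η, hη, (onAllTerms_of h2).imp (fun v hv a ha1 ha2 t ht hw => ?_)⟩
  by_contra hcon
  exact absurd hw (not_le.2 (hv a ha1 ha2 t ⟨ht, hcon⟩))

/-- the same for an exact exponent -/
theorem good' {T : Type*} (Adm Good : T → Prop) (h : T → ℝ) {G : ℕ → ℝ} {d : ℝ}
    (hG : Expanding G d) {s κ : ℝ} (hs : 0 ≤ s) (hκ : 0 ≤ κ) (h1 : d * s + κ < 1)
    (hS : ∃ C : ℝ, ∀ X : ℝ, 1 ≤ X →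
      {t | (Adm t ∧ ¬ Good t) ∧ h t ≤ X}.Finite ∧ ({t | (Adm t ∧ ¬ Good t) ∧ h t ≤ X}.ncard : ℝ) ≤ C * X ^ s) :
    ∃ η : ℝ, 0 < η ∧ OnAllTerms (fun v => ∀ a : ℕ, 1 ≤ a → (a : ℝ) ≤ (v : ℝ) ^ η → ∀ t : T, Adm t →
      |h t - a * G v| ≤ (v : ℝ) ^ (κ + η) → Good t) := by
  refine good Adm Good h hG hs hκ h1 (fun ε hε => ?_)
  obtain ⟨C, hC⟩ := hS
  refine ⟨|C|, fun X hX => ⟨(hC X hX).1, (hC X hX).2.trans ?_⟩⟩
  calc C * X ^ s ≤ |C| * X ^ s := mul_le_mul_of_nonneg_right (le_abs_self C) (by positivity)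
    _ ≤ |C| * X ^ (s + ε) :=
        mul_le_mul_of_nonneg_left (Real.rpow_le_rpow_of_exponent_le hX (by linarith)) (abs_nonneg C)

open scoped Classical in
/-- the same for a set of natural numbers -/
theorem nat (P : Set ℕ) {G : ℕ → ℝ} {d : ℝ}
    (hG : Expanding G d) {s κ : ℝ} (hs : 0 ≤ s) (hκ : 0 ≤ κ) (h1 : d * s + κ < 1)
    (hP : ∀ ε : ℝ, 0 < ε → ∃ C : ℝ, ∀ X : ℕ, 1 ≤ X →
      (((Ioc 0 X).filter (fun t => t ∈ P)).card : ℝ) ≤ C * (X : ℝ) ^ (s + ε)) :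
    ∃ η : ℝ, 0 < η ∧ OnAllTerms (fun v => ∀ a : ℕ, 1 ≤ a → (a : ℝ) ≤ (v : ℝ) ^ η → ∀ n : ℕ,
      |(n : ℝ) - a * G v| ≤ (v : ℝ) ^ (κ + η) → n ≠ 0 ∧ n ∉ P) := by
  refine good (fun _ : ℕ => True) (fun n => n ≠ 0 ∧ n ∉ P) (fun t : ℕ => (t : ℝ)) hG hs hκ h1 ?_ |>.imp
    (fun η h => ⟨h.1, h.2.imp (fun v hv a ha1 ha2 n hn => hv a ha1 ha2 n trivial hn)⟩)
  intro ε hε
  obtain ⟨C, hC⟩ := hP ε hε
  refine ⟨|C| + 1, fun X hX => ?_⟩
  have hX1 : 1 ≤ ⌊X⌋₊ := Nat.le_floor (by exact_mod_cast hX)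
  have hsub : {t : ℕ | (True ∧ ¬ (t ≠ 0 ∧ t ∉ P)) ∧ (t : ℝ) ≤ X} ⊆
      (((Ioc 0 ⌊X⌋₊).filter (fun t => t ∈ P) ∪ {0} : Finset ℕ) : Set ℕ) := by
    rintro t ⟨⟨_, ht⟩, htX⟩
    rw [mem_coe, mem_union, mem_filter, mem_Ioc, mem_singleton]
    rcases Nat.eq_zero_or_pos t with h0 | h0
    · exact Or.inr h0
    · left
      refine ⟨⟨h0, Nat.le_floor htX⟩, ?_⟩
      by_contra hcon
      exact ht ⟨by omega, hcon⟩
  have hfin : ((((Ioc 0 ⌊X⌋₊).filter (fun t => t ∈ P) ∪ {0} : Finset ℕ) : Set ℕ)).Finite := Finset.finite_toSet _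
  refine ⟨hfin.subset hsub, ?_⟩
  have h2 := Set.ncard_le_ncard hsub hfin
  rw [Set.ncard_coe_finset] at h2
  have h3 : ({t : ℕ | (True ∧ ¬ (t ≠ 0 ∧ t ∉ P)) ∧ (t : ℝ) ≤ X}.ncard : ℝ) ≤
      (((Ioc 0 ⌊X⌋₊).filter (fun t => t ∈ P)).card : ℝ) + 1 := by
    have h4 := h2.trans (card_union_le _ _)
    rw [card_singleton] at h4
    exact_mod_cast h4
  have hXp : (1 : ℝ) ≤ X ^ (s + ε) := Real.one_le_rpow hX (by linarith)
  refine h3.trans ?_
  rw [add_mul, one_mul]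
  apply add_le_add _ hXp
  refine (hC _ hX1).trans ?_
  calc C * ((⌊X⌋₊ : ℕ) : ℝ) ^ (s + ε) ≤ |C| * ((⌊X⌋₊ : ℕ) : ℝ) ^ (s + ε) :=
        mul_le_mul_of_nonneg_right (le_abs_self C) (by positivity)
    _ ≤ |C| * X ^ (s + ε) := mul_le_mul_of_nonneg_left
        (Real.rpow_le_rpow (Nat.cast_nonneg _) (Nat.floor_le (by linarith)) (by linarith)) (abs_nonneg C)

/-- `a v ^ d` is expanding -/
theorem expanding_pow' {a d : ℝ} (ha : 0 < a) (hd : 1 ≤ d) : Expanding (fun v => a * (v : ℝ) ^ d) d :=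
  Pool.Agent.N733.TG.expanding_pow ha hd

end Run7.h702.CT
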