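import Pool.Agent.Run7.h702.CT.B

/-! The kit for results on all the terms of almost every Collatz trajectory: natural numbers with a property. -/

set_option autoImplicit false

namespace Run7.h702.CT

open Finset Filter Topology
open Pool.Agent.N733.TG (Expanding)

/-- **The kit for a property of the admissible natural numbers.** -/
theorem good_nat (Adm Good : ℕ → Prop) {G : ℕ → ℝ} {d : ℝ}
    (hG : Expanding G d) {s κ : ℝ} (hs : 0 ≤ s) (hκ : 0 ≤ κ) (h1 : d * s + κ < 1)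
    (hP : ∀ ε : ℝ, 0 < ε → ∃ C : ℝ, ∀ X : ℕ, 1 ≤ X →
      ({t : ℕ | 1 ≤ t ∧ t ≤ X ∧ Adm t ∧ ¬ Good t}.ncard : ℝ) ≤ C * (X : ℝ) ^ (s + ε)) :
    ∃ η : ℝ, 0 < η ∧ OnAllTerms (fun v => ∀ a : ℕ, 1 ≤ a → (a : ℝ) ≤ (v : ℝ) ^ η → ∀ n : ℕ, 1 ≤ n → Adm n →
      |(n : ℝ) - a * G v| ≤ (v : ℝ) ^ (κ + η) → Good n) := by
  obtain ⟨η, hη, h2⟩ := good (fun n : ℕ => 1 ≤ n ∧ Adm n) Good (fun n : ℕ => (n : ℝ)) hG hs hκ h1
    (fun ε hε => by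
      obtain ⟨C, hC⟩ := hP ε hε
      refine ⟨|C|, fun X hX => ?_⟩
      have hX1 : 1 ≤ ⌊X⌋₊ := Nat.le_floor (by exact_mod_cast hX)
      have e : {t : ℕ | ((1 ≤ t ∧ Adm t) ∧ ¬ Good t) ∧ (t : ℝ) ≤ X} = {t : ℕ | 1 ≤ t ∧ t ≤ ⌊X⌋₊ ∧ Adm t ∧ ¬ Good t} := by
        ext t
        simp only [Set.mem_ofPred_eq]
        rw [← Nat.le_floor_iff (by linarith)]
        tauto
      rw [e]
      refine ⟨(Set.finite_Iic ⌊X⌋₊).subset (fun t ht => ht.2.1), (hC _ hX1).trans ?_⟩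
      calc C * ((⌊X⌋₊ : ℕ) : ℝ) ^ (s + ε) ≤ |C| * ((⌊X⌋₊ : ℕ) : ℝ) ^ (s + ε) :=
            mul_le_mul_of_nonneg_right (le_abs_self C) (by positivity)
        _ ≤ |C| * X ^ (s + ε) := mul_le_mul_of_nonneg_left
            (Real.rpow_le_rpow (Nat.cast_nonneg _) (Nat.floor_le (by linarith)) (by linarith)) (abs_nonneg C))
  exact ⟨η, hη, h2.imp (fun v hv a ha1 ha2 n hn1 hn hw => hv a ha1 ha2 n ⟨hn1, hn⟩ hw)⟩

end Run7.h702.CT
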