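import Pool.Agent.Run7.h702.CT.C

/-! The kit for results on all the terms of almost every Collatz trajectory: thin sets, `X exp (- c √ log X)`. -/

set_option autoImplicit false

namespace Run7.h702.CT

open Finset Filter Topology
open Run7.h702.AT (col col_Cz stay_count)
open Pool.Agent.R344.TH

open scoped Classical in
/-- **A thin set of natural numbers is avoided by all the terms.** -/
theorem avoid_thin {W : Set ℕ} {δ : ℝ} (hδ : 0 < δ) {X₀ : ℝ} (hX₀2 : 2 ≤ X₀)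
    (hW : ∀ X : ℝ, X₀ ≤ X → (((Icc 1 ⌊X⌋₊).filter (fun v => v ∈ W)).card : ℝ) ≤ X * Real.exp (-(Real.log X) ^ δ))
    (B : ℕ) :
    ∃ K : ℝ, 0 < K ∧ ∀ Y : ℝ, 2 ≤ Y → ∀ N : ℕ,
      (((Icc 1 N).filter (fun m : ℕ => ¬ Down (fun v => v ∉ W) Y m)).card : ℝ) ≤ K * N / Real.log Y ^ B := by
  obtain ⟨K₁, hK₁, h1⟩ := thin_Cz (d := 1) (by norm_num) isCoprime_one_left hδ B
  obtain ⟨K₂, hK₂, h2⟩ := stay_count B
  have hlX : 0 < Real.log X₀ := Real.log_pos (by linarith)
  refine ⟨K₁ + K₂ + (Real.log X₀) ^ B, by positivity, fun Y hY N => ?_⟩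
  have hlog : 0 < Real.log Y := Real.log_pos (by linarith)
  have hN0 : (0 : ℝ) ≤ N := Nat.cast_nonneg N
  rcases le_or_gt X₀ Y with hc | hc
  · have h3 := h1 Y hY ((fun a : ℕ => (a : ℤ)) '' W) (by
      intro X hX
      have hXX : X₀ ≤ X := hc.trans hX
      refine le_trans ?_ (hW X hXX)
      have hsub : fA ((fun a : ℕ => (a : ℤ)) '' W) Y X ⊆
          ((Icc 1 ⌊X⌋₊).filter (fun v => v ∈ W)).image (fun a : ℕ => (a : ℤ)) := by
        intro x hx
        rw [mem_fA] at hx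
        obtain ⟨⟨h1, h2⟩, a, ha, rfl⟩ := hx
        rw [mem_image]
        refine ⟨a, ?_, rfl⟩
        rw [mem_filter, mem_Icc]
        push_cast at h1 h2
        refine ⟨⟨?_, Nat.le_floor h2⟩, ha⟩
        have : (1 : ℝ) ≤ a := by linarith
        exact_mod_cast this
      exact_mod_cast (card_le_card hsub).trans card_image_le) N
    have h4 := h2 Y hY N
    have h5 : ((Icc 1 N).filter (fun m : ℕ => ¬ Down (fun v => v ∉ W) Y m)).card ≤
        ((Icc 1 N).filter (fun m : ℕ => ∀ k : ℕ, Y ≤ ((col^[k] m : ℕ) : ℝ))).card +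
        ((Icc (1 : ℤ) N).filter (fun n => ∃ k : ℕ, (Cz 1)^[k] n ∈ (fun a : ℕ => (a : ℤ)) '' W ∧
          ∀ j ≤ k, Y ≤ (((Cz 1)^[j] n : ℤ) : ℝ))).card := by
      have e1 : (Icc 1 N).filter (fun m : ℕ => ¬ Down (fun v => v ∉ W) Y m) ⊆
          (Icc 1 N).filter (fun m : ℕ => ∀ k : ℕ, Y ≤ ((col^[k] m : ℕ) : ℝ)) ∪
          (Icc 1 N).filter (fun m : ℕ => ∃ k : ℕ, (Cz 1)^[k] (m : ℤ) ∈ (fun a : ℕ => (a : ℤ)) '' W ∧
            ∀ j ≤ k, Y ≤ (((Cz 1)^[j] (m : ℤ) : ℤ) : ℝ)) := by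
        intro m hm
        rw [mem_filter] at hm
        rw [mem_union, mem_filter, mem_filter]
        rcases not_down hm.2 with h | h
        · exact Or.inl ⟨hm.1, h⟩
        · exact Or.inr ⟨hm.1, h⟩
      refine (card_le_card e1).trans ((card_union_le _ _).trans (Nat.add_le_add_left ?_ _))
      apply card_le_card_of_injOn (fun m : ℕ => (m : ℤ))
      · intro m hm
        rw [mem_coe, mem_filter, mem_Icc] at hm
        rw [mem_coe, mem_filter, mem_Icc]
        have e2 : (1 : ℤ) ≤ (m : ℤ) := by exact_mod_cast hm.1.1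
        have e3 : (m : ℤ) ≤ (N : ℤ) := by exact_mod_cast hm.1.2
        exact ⟨⟨e2, e3⟩, hm.2⟩
      · intro a _ b _ hab
        exact Nat.cast_injective (R := ℤ) hab
    have h6 : (((Icc 1 N).filter (fun m : ℕ => ¬ Down (fun v => v ∉ W) Y m)).card : ℝ) ≤
        K₂ * N / Real.log Y ^ B + K₁ * N / Real.log Y ^ B := by
      refine le_trans (by exact_mod_cast h5) (add_le_add h4 h3)
    refine h6.trans ?_
    rw [← add_div]
    apply div_le_div_of_nonneg_right _ (by positivity)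
    have : 0 ≤ (Real.log X₀) ^ B * N := by positivity
    nlinarith
  · have h3 : (((Icc 1 N).filter (fun m : ℕ => ¬ Down (fun v => v ∉ W) Y m)).card : ℝ) ≤ N := by
      have : ((Icc 1 N).filter (fun m : ℕ => ¬ Down (fun v => v ∉ W) Y m)).card ≤ N := by
        refine (card_filter_le _ _).trans ?_
        rw [Nat.card_Icc]; omega
      exact_mod_cast this
    refine h3.trans ?_
    rw [le_div_iff₀ (by positivity)]
    have h4 : Real.log Y ^ B ≤ Real.log X₀ ^ B :=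
      pow_le_pow_left₀ hlog.le (Real.log_le_log (by linarith) hc.le) B
    have h5 : (N : ℝ) * Real.log Y ^ B ≤ Real.log X₀ ^ B * N := by
      rw [mul_comm]
      exact mul_le_mul_of_nonneg_right h4 hN0
    have : 0 ≤ (K₁ + K₂) * N := by positivity
    nlinarith

theorem ev_small {c β : ℝ} (hc : 0 < c) (hβ : 0 < β) (M : ℝ) : ∃ X₀ : ℝ, 2 ≤ X₀ ∧ ∀ X : ℝ, X₀ ≤ X →
    M * Real.exp (-(c * (Real.log X) ^ β)) ≤ Real.exp (-(Real.log X) ^ (β / 2)) := by
  obtain ⟨R, hR⟩ : ∃ R : ℝ, R = max ((2 / c) ^ 2) (2 / c * Real.log (|M| + 1)) := ⟨_, rfl⟩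
  have hR0 : 0 ≤ R := by rw [hR]; exact le_trans (by positivity) (le_max_left _ _)
  obtain ⟨T, hT⟩ : ∃ T : ℝ, T = max 1 (R ^ (1 / β)) := ⟨_, rfl⟩
  refine ⟨max 2 (Real.exp T), le_max_left _ _, fun X hX => ?_⟩
  have hX0 : 0 < X := by
    have := (le_max_left _ _).trans hX
    linarith
  obtain ⟨t, ht⟩ : ∃ t, t = Real.log X := ⟨_, rfl⟩
  have htT : T ≤ t := by
    rw [ht, Real.le_log_iff_exp_le hX0]
    exact (le_max_right _ _).trans hX
  have h1 : 1 ≤ t := (by rw [hT]; exact le_max_left _ _ : (1 : ℝ) ≤ T).trans htT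
  have h2 : R ^ (1 / β) ≤ t := (by rw [hT]; exact le_max_right _ _ : R ^ (1 / β) ≤ T).trans htT
  rw [← ht]
  obtain ⟨r, hr⟩ : ∃ r, r = t ^ β := ⟨_, rfl⟩
  have hr0 : 0 ≤ r := by rw [hr]; positivity
  have h3 : R ≤ r := by
    have h4 : (R ^ (1 / β)) ^ β ≤ t ^ β := Real.rpow_le_rpow (by positivity) h2 hβ.le
    rwa [← Real.rpow_mul hR0, one_div, inv_mul_cancel₀ hβ.ne', Real.rpow_one, ← hr] at h4
  have h4 : 2 / c * Real.log (|M| + 1) ≤ r := (by rw [hR]; exact le_max_right _ _ :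
    2 / c * Real.log (|M| + 1) ≤ R).trans h3
  have h5 : (2 / c) ^ 2 ≤ r := (by rw [hR]; exact le_max_left _ _ : (2 / c) ^ 2 ≤ R).trans h3
  have h6 : t ^ (β / 2) = √r := by
    rw [hr, Real.sqrt_eq_rpow, ← Real.rpow_mul (by linarith)]
    congr 1
    ring
  have h7 : 2 / c ≤ √r := Real.le_sqrt_of_sq_le h5
  have h8 : √r * √r = r := Real.mul_self_sqrt hr0
  have h9 : √r ≤ c / 2 * r := by
    have h10 : 1 ≤ c / 2 * √r := by
      rw [div_le_iff₀ hc] at h7
      linarith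
    nlinarith [Real.sqrt_nonneg r]
  have h10 : Real.log (|M| + 1) ≤ c / 2 * r := by
    rw [div_mul_eq_mul_div, div_le_iff₀ hc] at h4
    linarith
  rw [h6, ← hr]
  calc M * Real.exp (-(c * r)) ≤ (|M| + 1) * Real.exp (-(c * r)) :=
        mul_le_mul_of_nonneg_right (by linarith [le_abs_self M]) (Real.exp_pos _).le
    _ ≤ Real.exp (c / 2 * r) * Real.exp (-(c * r)) := by
        apply mul_le_mul_of_nonneg_right _ (Real.exp_pos _).le
        rw [← Real.log_le_iff_le_exp (by positivity)]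
        exact h10
    _ = Real.exp (-(c / 2 * r)) := by
        rw [← Real.exp_add]
        congr 1
        ring
    _ ≤ Real.exp (-√r) := by
        apply Real.exp_le_exp.2
        linarith

/-- **The kit for a property of all numbers but a thin set.** -/
theorem thin_good {P : ℕ → Prop} {c K β : ℝ} (hc : 0 < c) (hβ : 0 < β)
    (h : ∀ x : ℕ, 1 ≤ x → ({m : ℕ | 1 ≤ m ∧ m ≤ x ∧ ¬ P m}.ncard : ℝ) ≤ K * x * Real.exp (-(c * Real.log x ^ β))) :
    ∃ η : ℝ, 0 < η ∧ OnAllTerms (fun v => ∀ a : ℕ, 1 ≤ a → (a : ℝ) ≤ Real.exp (η * Real.log v ^ β) → ∀ n : ℕ, 1 ≤ n →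
      |(n : ℝ) - a * v| ≤ Real.exp (η * Real.log v ^ β) → P n) := by
  classical
  obtain ⟨η, hη⟩ : ∃ η : ℝ, η = c / 8 := ⟨_, rfl⟩
  have hη0 : 0 < η := by rw [hη]; positivity
  obtain ⟨W, hW⟩ : ∃ W : Set ℕ, W = {v : ℕ | ∃ a : ℕ, 1 ≤ a ∧ (a : ℝ) ≤ Real.exp (η * Real.log v ^ β) ∧ ∃ n : ℕ, 1 ≤ n ∧
      |(n : ℝ) - a * v| ≤ Real.exp (η * Real.log v ^ β) ∧ ¬ P n} := ⟨_, rfl⟩
  obtain ⟨X₀, hX₀2, hX₀⟩ := ev_small (c := c / 2) (by positivity) hβ (8 * |K|)
  have hWc : ∀ X : ℝ, X₀ ≤ X → (((Icc 1 ⌊X⌋₊).filter (fun v => v ∈ W)).card : ℝ) ≤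
      X * Real.exp (-(Real.log X) ^ (β / 2)) := by
    intro X hX
    have hX2 : 2 ≤ X := hX₀2.trans hX
    have hX0 : 0 < X := by linarith
    have hl0 : 0 ≤ Real.log X := Real.log_nonneg (by linarith)
    obtain ⟨r, hr⟩ : ∃ r, r = Real.log X ^ β := ⟨_, rfl⟩
    have hr0 : 0 ≤ r := by rw [hr]; exact Real.rpow_nonneg hl0 _
    obtain ⟨A, hA⟩ : ∃ A : ℝ, A = Real.exp (η * r) := ⟨_, rfl⟩
    have hA1 : 1 ≤ A := by rw [hA]; exact Real.one_le_exp (by positivity)
    obtain ⟨p, hp⟩ : ∃ p : ℕ, p = ⌊A⌋₊ := ⟨_, rfl⟩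
    have hpA : (p : ℝ) ≤ A := by rw [hp]; exact Nat.floor_le (by linarith)
    obtain ⟨Z, hZ⟩ : ∃ Z : ℕ, Z = ⌊2 * A * X⌋₊ := ⟨_, rfl⟩
    have hZle : (Z : ℝ) ≤ 2 * A * X := by rw [hZ]; exact Nat.floor_le (by positivity)
    have hXZ : X ≤ Z := by
      have h1 : X + 1 ≤ 2 * A * X := by nlinarith
      have h2 := Nat.lt_floor_add_one (2 * A * X)
      rw [← hZ] at h2
      linarith
    have hZ1 : 1 ≤ Z := by
      have : (1 : ℝ) ≤ Z := by linarith
      exact_mod_cast this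
    have hmono : ∀ v : ℕ, v ∈ Icc 1 ⌊X⌋₊ → Real.exp (η * Real.log v ^ β) ≤ A := by
      intro v hv
      rw [mem_Icc] at hv
      rw [hA, hr]
      apply Real.exp_le_exp.2
      apply mul_le_mul_of_nonneg_left _ hη0.le
      apply Real.rpow_le_rpow (Real.log_nonneg (by exact_mod_cast hv.1)) _ hβ.le
      apply Real.log_le_log (by exact_mod_cast hv.1)
      exact (Nat.cast_le.2 hv.2).trans (Nat.floor_le hX0.le)
    -- `v` is determined by `a`, `n - a v` and `n`
    have hsub : (Icc 1 ⌊X⌋₊).filter (fun v => v ∈ W) ⊆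
        ((Icc 1 p) ×ˢ ((Icc (-(p : ℤ)) p) ×ˢ ((Icc 1 Z).filter (fun n => ¬ P n)))).image
          (fun q : ℕ × ℤ × ℕ => (((q.2.2 : ℤ) - q.2.1) / q.1).toNat) := by
      intro v hv
      rw [mem_filter] at hv
      obtain ⟨hvX, hvW⟩ := hv
      have hm := hmono v hvX
      rw [mem_Icc] at hvX
      rw [hW] at hvW
      obtain ⟨a, ha1, ha2, n, hn1, hn2, hn3⟩ := hvW
      have haA : (a : ℝ) ≤ A := ha2.trans hm
      have hnA := hn2.trans hm
      have hvXr : (v : ℝ) ≤ X := (Nat.cast_le.2 hvX.2).trans (Nat.floor_le hX0.le)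
      have hap : a ≤ p := by rw [hp]; exact Nat.le_floor haA
      have hd : |((n : ℤ) - a * v : ℤ)| ≤ p := by
        rw [hp]
        have h1 : ((|((n : ℤ) - a * v : ℤ)| : ℤ) : ℝ) ≤ A := by
          push_cast
          exact hnA
        have h2 : (((|((n : ℤ) - a * v : ℤ)|).toNat : ℕ) : ℝ) ≤ A := by
          have e : (((|((n : ℤ) - a * v : ℤ)|).toNat : ℕ) : ℤ) = |((n : ℤ) - a * v : ℤ)| :=
            Int.toNat_of_nonneg (abs_nonneg _)
          have e' : ((((|((n : ℤ) - a * v : ℤ)|).toNat : ℕ) : ℤ) : ℝ) ≤ A := by rw [e]; exact h1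
          exact_mod_cast e'
        have h3 := Nat.le_floor h2
        have e : (((|((n : ℤ) - a * v : ℤ)|).toNat : ℕ) : ℤ) = |((n : ℤ) - a * v : ℤ)| :=
          Int.toNat_of_nonneg (abs_nonneg _)
        rw [← e]
        exact_mod_cast h3
      have hnZ : n ≤ Z := by
        rw [hZ]
        apply Nat.le_floor
        have h1 := (abs_le.1 hnA).2
        have h2 : (a : ℝ) * v ≤ A * X := mul_le_mul haA hvXr (Nat.cast_nonneg _) (by linarith)
        nlinarith
      rw [mem_image]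
      refine ⟨(a, (n : ℤ) - a * v, n), ?_, ?_⟩
      · rw [mem_product, mem_product, mem_filter, mem_Icc, mem_Icc, mem_Icc]
        rw [abs_le] at hd
        exact ⟨⟨ha1, hap⟩, ⟨hd.1, hd.2⟩, ⟨hn1, hnZ⟩, hn3⟩
      · have e : ((n : ℤ) - ((n : ℤ) - a * v)) / (a : ℤ) = v := by
          rw [sub_sub_cancel]
          exact Int.mul_ediv_cancel_left _ (by omega)
        show (((n : ℤ) - ((n : ℤ) - a * v)) / (a : ℤ)).toNat = v
        rw [e]
        rfl
    have h1 : (((Icc 1 ⌊X⌋₊).filter (fun v => v ∈ W)).card : ℝ) ≤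
        (p : ℝ) * ((2 * p + 1) * (((Icc 1 Z).filter (fun n => ¬ P n)).card : ℝ)) := by
      have h2 := (card_le_card hsub).trans card_image_le
      rw [card_product, card_product, Nat.card_Icc, Int.card_Icc] at h2
      have e1 : ((p : ℤ) + 1 - -(p : ℤ)).toNat = 2 * p + 1 := by omega
      have e2 : p + 1 - 1 = p := by omega
      rw [e1, e2] at h2
      exact_mod_cast h2
    have h3 : (((Icc 1 Z).filter (fun n => ¬ P n)).card : ℝ) ≤ K * Z * Real.exp (-(c * Real.log Z ^ β)) := by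
      refine le_trans (le_of_eq ?_) (h Z hZ1)
      rw [← Set.ncard_coe_finset]
      congr 2
      ext m
      simp only [coe_filter, mem_Icc, Set.mem_setOf_eq]
      tauto
    have h4 : Real.exp (-(c * Real.log Z ^ β)) ≤ Real.exp (-(c * r)) := by
      apply Real.exp_le_exp.2
      have : r ≤ Real.log Z ^ β := by
        rw [hr]
        exact Real.rpow_le_rpow hl0 (Real.log_le_log hX0 hXZ) hβ.le
      nlinarith
    have h5 : K * Z * Real.exp (-(c * Real.log Z ^ β)) ≤ |K| * (2 * A * X) * Real.exp (-(c * r)) := by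
      calc K * Z * Real.exp (-(c * Real.log Z ^ β)) ≤ |K| * Z * Real.exp (-(c * Real.log Z ^ β)) := by
            apply mul_le_mul_of_nonneg_right _ (Real.exp_pos _).le
            exact mul_le_mul_of_nonneg_right (le_abs_self K) (Nat.cast_nonneg _)
        _ ≤ |K| * (2 * A * X) * Real.exp (-(c * r)) := by
            apply mul_le_mul _ h4 (Real.exp_pos _).le (by positivity)
            exact mul_le_mul_of_nonneg_left hZle (abs_nonneg _)
    have h6 : (p : ℝ) * ((2 * p + 1) * (((Icc 1 Z).filter (fun n => ¬ P n)).card : ℝ)) ≤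
        A * ((3 * A) * (|K| * (2 * A * X) * Real.exp (-(c * r)))) := by
      apply mul_le_mul hpA _ (by positivity) (by linarith)
      apply mul_le_mul _ (h3.trans h5) (Nat.cast_nonneg _) (by linarith)
      linarith
    refine h1.trans (h6.trans ?_)
    have h7 : A * A * A ≤ Real.exp (c / 2 * r) := by
      rw [hA, ← Real.exp_add, ← Real.exp_add]
      apply Real.exp_le_exp.2
      rw [hη]
      nlinarith
    have h8 := hX₀ X hX
    rw [← hr] at h8
    calc A * ((3 * A) * (|K| * (2 * A * X) * Real.exp (-(c * r))))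
        = 6 * |K| * X * ((A * A * A) * Real.exp (-(c * r))) := by ring
      _ ≤ 8 * |K| * X * (Real.exp (c / 2 * r) * Real.exp (-(c * r))) := by
          apply mul_le_mul
          · have : 0 ≤ |K| * X := by positivity
            nlinarith
          · exact mul_le_mul_of_nonneg_right h7 (Real.exp_pos _).le
          · positivity
          · positivity
      _ = X * (8 * |K| * Real.exp (-(c / 2 * r))) := by
          rw [← Real.exp_add]
          have : c / 2 * r + -(c * r) = -(c / 2 * r) := by ring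
          rw [this]
          ring
      _ ≤ X * Real.exp (-(Real.log X) ^ (β / 2)) := mul_le_mul_of_nonneg_left h8 hX0.le
  refine ⟨η, hη0, onAllTerms_of (fun B => ?_)⟩
  obtain ⟨K', hK', hav⟩ := avoid_thin (δ := β / 2) (by positivity) hX₀2 hWc B
  refine ⟨K', hK', fun Y hY N => le_trans ?_ (hav Y hY N)⟩
  have h2 : (Icc 1 N).filter (fun m : ℕ => ¬ Down (fun v => ∀ a : ℕ, 1 ≤ a → (a : ℝ) ≤ Real.exp (η * Real.log v ^ β) →
      ∀ n : ℕ, 1 ≤ n → |(n : ℝ) - a * v| ≤ Real.exp (η * Real.log v ^ β) → P n) Y m) ⊆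
      (Icc 1 N).filter (fun m : ℕ => ¬ Down (fun v => v ∉ W) Y m) := by
    intro m hm
    rw [mem_filter] at hm ⊢
    refine ⟨hm.1, fun hd => hm.2 (hd.imp fun v hv a ha1 ha2 n hn1 hn2 => ?_)⟩
    by_contra hcon
    apply hv
    rw [hW]
    exact ⟨a, ha1, ha2, n, hn1, hn2, hcon⟩
  exact_mod_cast card_le_card h2

end Run7.h702.CT
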